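import Pool.Agent.Lib.MP_e97be0_al.Final

/-!
A simple group with conjugate, self-normalizing maximal abelian subgroups and bounded covering
by conjugacy classes and by cosets.
-/

open scoped Pointwise

namespace Pool.Agent.Results.MP_e97be0_al.Existence

open Pool.Agent.Lib.MP_e97be0_al

/-- `H` is an abelian subgroup not properly contained in any abelian subgroup. -/
def IsMaxAbelian {G : Type} [Group G] (H : Subgroup G) : Prop :=
  (∀ x ∈ H, ∀ y ∈ H, x * y = y * x) ∧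
    ∀ L : Subgroup G, (∀ x ∈ L, ∀ y ∈ L, x * y = y * x) → H ≤ L → L = H

theorem pow_univ {G : Type} [Group G] {S : Set G} {n : ℕ} (h : ∀ x, ProdOf (· ∈ S) n x) :
    S ^ n = Set.univ :=
  Set.eq_univ_of_forall fun x => by
    obtain ⟨f, h1, h2⟩ := (h x).fn
    exact Set.mem_pow.2 ⟨fun i => ⟨f i, h1 i⟩, h2⟩

theorem infinite_of_cover {G : Type} [Group G] {H : Subgroup G} (hH : H ≠ ⊤)
    (hc : ∀ g : G, ∃ t : G, t⁻¹ * g * t ∈ H) : Infinite G := by
  classical
  by_contra hfin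
  have : Finite G := not_infinite_iff_finite.1 hfin
  let _ := Fintype.ofFinite G
  let _ := Fintype.ofFinite (G ⧸ H)
  have : Subsingleton (MulAction.orbitRel.Quotient G (G ⧸ H)) :=
    (MulAction.pretransitive_iff_subsingleton_quotient G (G ⧸ H)).1 inferInstance
  let _ := Fintype.ofFinite (MulAction.orbitRel.Quotient G (G ⧸ H))
  have hs := MulAction.sum_card_fixedBy_eq_card_orbits_mul_card_group G (G ⧸ H)
  have h1 : Fintype.card (MulAction.orbitRel.Quotient G (G ⧸ H)) ≤ 1 :=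
    Fintype.card_le_one_iff_subsingleton.2 this
  have h2 : ∑ _a : G, 1 < ∑ a : G, Fintype.card (MulAction.fixedBy (G ⧸ H) a) := by
    refine Finset.sum_lt_sum (fun g _ => ?_) ⟨1, Finset.mem_univ _, ?_⟩
    · obtain ⟨t, ht⟩ := hc g
      refine Fintype.card_pos_iff.2 ⟨⟨(t : G ⧸ H), ?_⟩⟩
      rw [MulAction.mem_fixedBy, MulAction.Quotient.smul_mk, eq_comm, QuotientGroup.eq]
      simpa [mul_assoc] using ht
    · obtain ⟨a, ha⟩ : ∃ a, a ∉ H := by
        by_contra hno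
        push Not at hno
        exact hH (eq_top_iff.2 fun a _ => hno a)
      refine Fintype.one_lt_card_iff.2
        ⟨⟨((1 : G) : G ⧸ H), by simp⟩, ⟨(a : G ⧸ H), by simp⟩, fun e => ha ?_⟩
      simpa using QuotientGroup.eq.1 (congrArg Subtype.val e)
  rw [hs] at h2
  simp only [Finset.sum_const, Finset.card_univ, smul_eq_mul, mul_one] at h2
  exact absurd h2 (not_lt.2 (by simpa using Nat.mul_le_mul_right (Fintype.card G) h1))

theorem result :
    ∃ (G : Type) (_ : Group G),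
      Infinite G ∧ (∃ a b : G, a * b ≠ b * a) ∧ (∀ g : G, g * g = 1 → g = 1) ∧
      (∃ H : Subgroup G, IsMaxAbelian H ∧ H ≠ ⊥ ∧ H ≠ ⊤) ∧
      (IsSimpleGroup G ∧
        ∀ C : ConjClasses G, C.carrier ≠ {1} → C.carrier ^ 18 = Set.univ) ∧
      (∀ H L : Subgroup G, IsMaxAbelian H → IsMaxAbelian L →
        ∃ g : G, H.map (MulAut.conj g).toMonoidHom = L) ∧
      (∀ H : Subgroup G, IsMaxAbelian H →
        Subgroup.normalizer (H : Set G) = H ∧
          ∀ h ∈ H, h ≠ 1 → Subgroup.centralizer {h} = H) ∧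
      (∀ H : Subgroup G, IsMaxAbelian H → ∀ a : G, a ∉ H →
        (a • (H : Set G)) ^ 19 = Set.univ) := by
  obtain ⟨G, _, kG, hne, hS⟩ := exists_closed
  have hmax : ∀ {H : Subgroup G}, IsMaxAbelian H → ∃ h : G, h ≠ 1 ∧ ∀ g, g ∈ H ↔ Commute h g :=
    fun hH => max_ab kG hne ⟨hH.1, fun L hL hle => (hH.2 L hL hle).le⟩
  have hconj := fun (g : G) (hg : g ≠ 1) (x : G) => conj_cover kG hne hS hg x
  obtain ⟨a, b, hab⟩ := hne
  have ha : a ≠ 1 := fun e => hab (by rw [e]; exact Commute.one_left b)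
  have htop : Subgroup.centralizer ({a} : Set G) ≠ ⊤ := fun e =>
    hab (mem_cent.1 (e ▸ Subgroup.mem_top b))
  refine ⟨G, inferInstance, infinite_of_cover htop fun g => ?_, ⟨a, b, hab⟩, kG.ni,
    ⟨Subgroup.centralizer {a}, ⟨fun x hx y hy => ?_, fun L hL hle => ?_⟩, fun e => ?_, htop⟩,
    ⟨?_, fun C hC => ?_⟩, fun H L hH hL => ?_, fun H hH => ?_, fun H hH c hc => ?_⟩
  · by_cases hg : g = 1
    · exact ⟨1, by simp [hg]⟩
    · obtain ⟨t, ht⟩ := (hS (a, g, 1)).1 ha hg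
      exact ⟨t, mem_cent.2 ht⟩
  · exact (kG.ct a x y ha (mem_cent.1 hx) (mem_cent.1 hy)).eq
  · exact le_antisymm
      (fun x hx => mem_cent.2 (hL a (hle (mem_cent.2 (Commute.refl a))) x hx)) hle
  · exact ha (Subgroup.mem_bot.1 (e ▸ mem_cent.2 (Commute.refl a)))
  · have : Nontrivial G := ⟨⟨a, 1, ha⟩⟩
    refine ⟨fun N hN => ?_⟩
    by_cases hbot : N = ⊥
    · exact Or.inl hbot
    · right
      obtain ⟨⟨g, hg⟩, hg1⟩ := (Subgroup.ne_bot_iff_exists_ne_one (H := N)).1 hbot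
      rw [eq_top_iff]
      rintro x -
      obtain ⟨l, -, h1, rfl⟩ := hconj g (fun e => hg1 (Subtype.ext e)) x
      refine N.list_prod_mem fun z hz => ?_
      obtain ⟨c, rfl⟩ := isConj_iff.1 (h1 z hz)
      exact hN.conj_mem g hg c
  · obtain ⟨g, rfl⟩ := ConjClasses.mk_surjective C
    have hg : g ≠ 1 := fun e => hC (by
      ext x
      rw [e, ConjClasses.mem_carrier_iff_mk_eq, ConjClasses.mk_eq_mk_iff_isConj,
        isConj_one_left, Set.mem_singleton_iff])
    exact pow_univ (hconj g hg)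
  · obtain ⟨h, hh, hH'⟩ := hmax hH
    obtain ⟨k, hk, hL'⟩ := hmax hL
    obtain ⟨t, ht⟩ := (hS (h, k, 1)).1 hh hk
    simp only [MonoidHom.id_apply] at ht
    refine ⟨t, Subgroup.ext fun x => ?_⟩
    rw [Subgroup.mem_map_equiv, MulAut.conj_symm_apply, hL', hH', ← commute_conj_iff t (a := k)]
    exact ⟨fun e => kG.ct _ _ _ hh ht e, fun e => kG.ct _ _ _ (conj_ne_one t hk) ht.symm e⟩
  · obtain ⟨h, hh, hH'⟩ := hmax hH
    refine ⟨le_antisymm (fun g hg => ?_) Subgroup.le_normalizer, fun c hc hc1 => ?_⟩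
    · rw [hH']
      exact kG.mn h g hh ((hH' _).1
        ((Subgroup.mem_normalizer_iff.1 hg h).1 ((hH' h).2 (Commute.refl h))))
    · ext g
      rw [hH'] at hc
      rw [hH', mem_cent]
      exact ⟨fun e => kG.ct c _ _ hc1 hc.symm e, fun e => kG.ct h _ _ hh hc e⟩
  · obtain ⟨h, hh, hH'⟩ := hmax hH
    refine pow_univ fun x => ?_
    obtain ⟨l, h1, h2, h3⟩ := coset_cover kG hS hh (fun e => hc ((hH' c).2 e)) x
    exact ⟨l, h1, fun z hz => Set.mem_smul_set_iff_inv_smul_mem.2 ((hH' _).2 (h2 z hz)), h3⟩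

end Pool.Agent.Results.MP_e97be0_al.Existence
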